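import Mathlib
import Pool.Agent.helper58.TreeQE

set_option autoImplicit false

/-!
# A complete theory of low VC-density (hence dp-minimal) which is not weakly VC-minimal

The theory is the complete theory of the tree all of whose vertices have countably infinite degree,
in the language of graphs (the free pseudoplane).
-/

namespace Pool.Agent.Results.MP_670fc8_lc.FreePseudoplane

open FirstOrder FirstOrder.Language Filter Asymptotics

universe u v

section Definitions

variable {L : FirstOrder.Language.{u, v}}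

/-- The instance `φ(M; b)`: the subset of `M^α` defined by `φ(x; b)`. -/
def instanceSet {α β M : Type*} [L.Structure M] (φ : L.Formula (α ⊕ β)) (b : β → M) :
    Set (α → M) :=
  {a | φ.Realize (Sum.elim a b)}

/-- A family `A` of subsets of `X` is independent if for every choice `s` of signs there is a point
of `X` lying in exactly those members `B` of `A` with `s B`. -/
def IsIndependent {X : Type*} (A : Set (Set X)) : Prop :=
  ∀ s : Set X → Prop, ∃ x, ∀ B ∈ A, (x ∈ B ↔ s B)

/-- The independence dimension of `φ(x; y)` with respect to `T` is at most `n`: in every model of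
`T`, every finite independent family of instances of `φ` has at most `n` members. -/
def IndepDimLE (T : L.Theory) {α β : Type} (φ : L.Formula (α ⊕ β)) (n : ℕ) : Prop :=
  ∀ (M : Type (max u v)) [L.Structure M] [M ⊨ T] [Nonempty M] (A : Finset (Set (α → M))),
    (∀ B ∈ A, ∃ b : β → M, B = instanceSet φ b) → IsIndependent (A : Set (Set (α → M))) →
      A.card ≤ n

/-- `T` is weakly VC-minimal: in every model of `T`, every definable subset `φ(M; b)` of the line is
a (finite) Boolean combination of instances of formulas of independence dimension at most one. -/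
def WeaklyVCMinimal (T : L.Theory) : Prop :=
  ∀ (m : ℕ) (φ : L.Formula (Fin 1 ⊕ Fin m)) (M : Type (max u v)) [L.Structure M] [M ⊨ T]
    [Nonempty M] (b : Fin m → M),
    instanceSet φ b ∈ BooleanSubalgebra.closure
      {X : Set (Fin 1 → M) | ∃ (k : ℕ) (ψ : L.Formula (Fin 1 ⊕ Fin k)) (c : Fin k → M),
        IndepDimLE T ψ 1 ∧ X = instanceSet ψ c}

/-- `T` is dp-minimal: there are no `φ(x; y)`, `ψ(x; z)`, with `x` a single variable, and sequences
`(bᵢ)`, `(cⱼ)` in a model of `T` such that every `(i, j)` is singled out by some element. -/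
def DpMinimal (T : L.Theory) : Prop :=
  ¬ ∃ (m m' : ℕ) (φ : L.Formula (Fin 1 ⊕ Fin m)) (ψ : L.Formula (Fin 1 ⊕ Fin m'))
      (M : Type (max u v)) (_ : L.Structure M) (_ : M ⊨ T) (_ : Nonempty M)
      (b : ℕ → Fin m → M) (c : ℕ → Fin m' → M),
      ∀ i j : ℕ, ∃ a : Fin 1 → M, a ∈ instanceSet φ (b i) ∧ a ∈ instanceSet ψ (c j) ∧
        (∀ k, k ≠ i → a ∉ instanceSet φ (b k)) ∧ (∀ l, l ≠ j → a ∉ instanceSet ψ (c l))

/-- The dual shatter function `π*_φ(n)`: the largest number of complete `φ`-types `x ↦ {b ∈ B | φ(x; b)}`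
realised over a set `B` of `n` parameter tuples in a model of `T`. -/
noncomputable def dualShatter (T : L.Theory) {α β : Type} (φ : L.Formula (α ⊕ β)) (n : ℕ) : ℕ :=
  sSup {k | ∃ (M : Type (max u v)) (_ : L.Structure M) (_ : M ⊨ T) (_ : Nonempty M)
    (B : Finset (β → M)), B.card = n ∧
      k = Set.ncard {S : Set (β → M) | ∃ a : α → M, S = {b | b ∈ B ∧ a ∈ instanceSet φ b}}}

/-- The VC-density of `φ(x; y)`: the infimum in `[0, ∞]` of the real `r ≥ 0` with
`π*_φ(n) = O(n ^ r)`, which is `∞` if there is no such `r`. -/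
noncomputable def vcDensity (T : L.Theory) {α β : Type} (φ : L.Formula (α ⊕ β)) : EReal :=
  sInf {s : EReal | ∃ r : ℝ, s = (r : EReal) ∧ 0 ≤ r ∧
    (fun n : ℕ => (dualShatter T φ n : ℝ)) =O[atTop] (fun n : ℕ => (n : ℝ) ^ r)}

/-- `T` has low VC-density: every `φ(x; y)` has VC-density at most the length of `x`. -/
def LowVCDensity (T : L.Theory) : Prop :=
  ∀ (d m : ℕ) (φ : L.Formula (Fin d ⊕ Fin m)), vcDensity T φ ≤ ((d : ℝ) : EReal)

end Definitions

section Transfer

variable {L : FirstOrder.Language.{u, v}}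

/-- The sentence: there are `k` parameter tuples over which `l` tuples have pairwise distinct
`φ`-traces. -/
noncomputable def manyTraces {α β : Type} [Finite α] [Finite β] (φ : L.Formula (α ⊕ β))
    (k l : ℕ) : L.Sentence :=
  Formula.iExs ((Fin k × β) ⊕ (Fin l × α))
    (Formula.iInf fun p : {p : Fin l × Fin l // p.1 ≠ p.2} => Formula.iSup fun i : Fin k =>
      ∼((φ.relabel (Sum.elim (fun a => Sum.inr (Sum.inr (p.1.1, a)))
            (fun b => Sum.inr (Sum.inl (i, b))) :
            α ⊕ β → Empty ⊕ ((Fin k × β) ⊕ (Fin l × α)))).iff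
        (φ.relabel (Sum.elim (fun a => Sum.inr (Sum.inr (p.1.2, a)))
            (fun b => Sum.inr (Sum.inl (i, b))) :
            α ⊕ β → Empty ⊕ ((Fin k × β) ⊕ (Fin l × α))))))

lemma realize_manyTraces {α β : Type} [Finite α] [Finite β] (φ : L.Formula (α ⊕ β))
    (k l : ℕ) (M : Type*) [L.Structure M] :
    M ⊨ manyTraces φ k l ↔ ∃ (b : Fin k → β → M) (a : Fin l → α → M),
      ∀ s t, s ≠ t → ∃ i, ¬ (φ.Realize (Sum.elim (a s) (b i)) ↔ φ.Realize (Sum.elim (a t) (b i))) := by
  have key : ∀ (g : ((Fin k × β) ⊕ (Fin l × α)) → M) (s : Fin l) (i : Fin k),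
      (Sum.elim (default : Empty → M) g ∘ (Sum.elim (fun a => Sum.inr (Sum.inr (s, a)))
            (fun b => Sum.inr (Sum.inl (i, b))) :
            α ⊕ β → Empty ⊕ ((Fin k × β) ⊕ (Fin l × α)))) =
        Sum.elim (fun x => g (Sum.inr (s, x))) (fun y => g (Sum.inl (i, y))) := by
    intro g s i
    funext z
    rcases z with z | z <;> rfl
  unfold Sentence.Realize manyTraces
  rw [Formula.realize_iExs]
  simp only [Formula.realize_iInf, Formula.realize_iSup, Formula.realize_not,
    Formula.realize_iff, Formula.realize_relabel, key]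
  constructor
  · rintro ⟨g, hg⟩
    exact ⟨fun i y => g (Sum.inl (i, y)), fun s x => g (Sum.inr (s, x)),
      fun s t hst => hg ⟨(s, t), hst⟩⟩
  · rintro ⟨b, a, h⟩
    refine ⟨Sum.elim (fun p => b p.1 p.2) (fun p => a p.1 p.2), ?_⟩
    rintro ⟨⟨s, t⟩, hst⟩
    exact h s t hst

/-- A counting lemma: bounding all lists of elements with pairwise distinct traces bounds the
number of traces. -/
lemma ncard_traces_le {A X : Type*} (R : A → X → Prop) (B : Finset X) (K : ℕ)
    (h : ∀ (l : ℕ) (a : Fin l → A), (∀ s t, s ≠ t → ∃ b ∈ B, ¬ (R (a s) b ↔ R (a t) b)) → l ≤ K) :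
    Set.ncard {S : Set X | ∃ a : A, S = {b | b ∈ B ∧ R a b}} ≤ K := by
  classical
  set 𝒮 : Set (Set X) := {S : Set X | ∃ a : A, S = {b | b ∈ B ∧ R a b}} with h𝒮
  have hfin : 𝒮.Finite := by
    refine (Set.Finite.finite_subsets B.finite_toSet).subset ?_
    rintro S ⟨a, rfl⟩ b hb
    exact hb.1
  have : Finite 𝒮 := hfin
  have e : 𝒮 ≃ Fin 𝒮.ncard := Finite.equivFinOfCardEq (Nat.card_coe_set_eq 𝒮)
  have hch : ∀ s : 𝒮, ∃ a : A, s.1 = {b | b ∈ B ∧ R a b} := fun s => s.2
  choose f hf using hch
  refine h 𝒮.ncard (fun i => f (e.symm i)) ?_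
  intro s t hst
  by_contra hcon
  push Not at hcon
  apply hst
  have h1 : e.symm s = e.symm t := by
    apply Subtype.ext
    rw [hf, hf]
    ext b
    constructor
    · rintro ⟨hb, hR⟩
      exact ⟨hb, (hcon b hb).mp hR⟩
    · rintro ⟨hb, hR⟩
      exact ⟨hb, (hcon b hb).mpr hR⟩
  exact e.symm.injective h1

end Transfer

open Pool.Agent.helper58.Tree

attribute [local instance] treeStructure

/-- The theory of the regular tree of countably infinite degree. -/
def freePseudoplane : Language.graph.Theory := Language.graph.completeTheory (List ℕ)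

lemma traces_bound {β : Type} [Finite β] (d : ℕ) (φ : Language.graph.Formula (Fin d ⊕ β)) :
    ∃ C, ∀ (M : Type) [Language.graph.Structure M] [M ⊨ freePseudoplane]
      (ι κ : Type) [Fintype ι] [Fintype κ] (b : ι → β → M) (a : κ → Fin d → M),
      (∀ s t, s ≠ t → ∃ i, ¬ (φ.Realize (Sum.elim (a s) (b i)) ↔
        φ.Realize (Sum.elim (a t) (b i)))) →
      Fintype.card κ ≤ C * (Fintype.card ι + 1) ^ d := by
  classical
  obtain ⟨C, hC⟩ := cov_traces d φ
  refine ⟨C, fun M _ hM ι κ _ _ b a h => ?_⟩
  have hM' : M ⊨ Language.graph.completeTheory (List ℕ) := hM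
  have h1 : M ⊨ manyTraces φ (Fintype.card ι) (Fintype.card κ) := by
    refine (realize_manyTraces φ _ _ M).mpr
      ⟨fun i => b ((Fintype.equivFin ι).symm i), fun s => a ((Fintype.equivFin κ).symm s), ?_⟩
    intro s t hst
    obtain ⟨i, hi⟩ := h _ _ (fun hh => hst ((Fintype.equivFin κ).symm.injective hh))
    refine ⟨Fintype.equivFin ι i, ?_⟩
    simpa using hi
  have h2 : (List ℕ) ⊨ manyTraces φ (Fintype.card ι) (Fintype.card κ) :=
    (realize_iff_of_model_completeTheory (List ℕ) M _).mp h1
  obtain ⟨b', a', h'⟩ := (realize_manyTraces φ _ _ (List ℕ)).mp h2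
  obtain ⟨F, hF1, hF2⟩ := hC _ b'
  let f : Fin (Fintype.card κ) → {x // x ∈ F} := fun s =>
    ⟨{i | φ.Realize (Sum.elim (a' s) (b' i))}, hF1 ⟨a' s, rfl⟩⟩
  have h3 : Function.Injective f := by
    intro s t hst
    by_contra hne
    obtain ⟨i, hi⟩ := h' s t hne
    apply hi
    have h4 : {i | φ.Realize (Sum.elim (a' s) (b' i))} =
        {i | φ.Realize (Sum.elim (a' t) (b' i))} := congrArg Subtype.val hst
    exact Set.ext_iff.mp h4 i
  have h5 := Fintype.card_le_of_injective _ h3
  simp only [Fintype.card_fin, Fintype.card_coe] at h5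
  exact h5.trans hF2

lemma lowVCDensity_freePseudoplane : LowVCDensity freePseudoplane := by
  intro d m φ
  obtain ⟨C, hC⟩ := traces_bound d φ
  have hπ : ∀ n, dualShatter freePseudoplane φ n ≤ C * (n + 1) ^ d := by
    intro n
    refine csSup_le' ?_
    rintro k ⟨M, hM1, hM2, -, B, hB, rfl⟩
    refine ncard_traces_le (fun a b => a ∈ instanceSet φ b) B _ ?_
    intro l a hla
    have := hC M {b // b ∈ B} (Fin l) (fun b => b.1) a (by
      intro s t hst
      obtain ⟨b, hb, hb'⟩ := hla s t hst
      exact ⟨⟨b, hb⟩, hb'⟩)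
    simpa [hB] using this
  refine sInf_le ⟨(d : ℝ), rfl, Nat.cast_nonneg d, ?_⟩
  refine Asymptotics.IsBigO.of_bound ((C : ℝ) * 2 ^ d) ?_
  filter_upwards [eventually_ge_atTop 1] with n hn
  have h1 : ((dualShatter freePseudoplane φ n : ℕ) : ℝ) ≤ C * ((n : ℝ) + 1) ^ d := by
    exact_mod_cast hπ n
  have h2 : ((n : ℝ) + 1) ^ d ≤ (2 * (n : ℝ)) ^ d := by
    apply pow_le_pow_left₀ (by positivity)
    have : (1 : ℝ) ≤ n := by exact_mod_cast hn
    linarith
  rw [Real.rpow_natCast, Real.norm_of_nonneg (by positivity), Real.norm_of_nonneg (by positivity)]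
  calc ((dualShatter freePseudoplane φ n : ℕ) : ℝ) ≤ C * ((n : ℝ) + 1) ^ d := h1
    _ ≤ C * (2 * (n : ℝ)) ^ d := by gcongr
    _ = C * 2 ^ d * (n : ℝ) ^ d := by rw [mul_pow]; ring

/-- The combination of two formulas used to show dp-minimality. -/
noncomputable def combine {m m' : ℕ} (φ : Language.graph.Formula (Fin 1 ⊕ Fin m))
    (ψ : Language.graph.Formula (Fin 1 ⊕ Fin m')) :
    Language.graph.Formula (Fin 1 ⊕ ((Fin m ⊕ Fin m') ⊕ Fin 2)) :=
  (((Term.var (Sum.inr (Sum.inr 0))).equal (Term.var (Sum.inr (Sum.inr 1)))).imp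
    (φ.relabel (Sum.map id (fun i => Sum.inl (Sum.inl i))))) ⊓
  ((∼((Term.var (Sum.inr (Sum.inr 0))).equal (Term.var (Sum.inr (Sum.inr 1))))).imp
    (ψ.relabel (Sum.map id (fun i => Sum.inl (Sum.inr i)))))

lemma realize_combine {m m' : ℕ} (φ : Language.graph.Formula (Fin 1 ⊕ Fin m))
    (ψ : Language.graph.Formula (Fin 1 ⊕ Fin m')) {M : Type*} [Language.graph.Structure M]
    (a : Fin 1 → M) (b : Fin m → M) (c : Fin m' → M) (e : Fin 2 → M) :
    (combine φ ψ).Realize (Sum.elim a (Sum.elim (Sum.elim b c) e)) ↔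
      ((e 0 = e 1 → φ.Realize (Sum.elim a b)) ∧ (e 0 ≠ e 1 → ψ.Realize (Sum.elim a c))) := by
  have h1 : (Sum.elim a (Sum.elim (Sum.elim b c) e)) ∘
      (Sum.map id (fun i => Sum.inl (Sum.inl i)) : Fin 1 ⊕ Fin m → _) = Sum.elim a b := by
    funext z
    rcases z with z | z <;> rfl
  have h2 : (Sum.elim a (Sum.elim (Sum.elim b c) e)) ∘
      (Sum.map id (fun i => Sum.inl (Sum.inr i)) : Fin 1 ⊕ Fin m' → _) = Sum.elim a c := by
    funext z
    rcases z with z | z <;> rfl
  unfold combine
  rw [Formula.realize_inf, Formula.realize_imp, Formula.realize_imp, Formula.realize_not,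
    Formula.realize_equal, Formula.realize_relabel, Formula.realize_relabel, h1, h2]
  simp

lemma dpMinimal_freePseudoplane : DpMinimal freePseudoplane := by
  classical
  rintro ⟨m, m', φ, ψ, M, hM1, hM2, -, b, c, h⟩
  choose a ha1 ha2 ha3 ha4 using h
  -- two distinct elements
  have hne : a 0 0 0 ≠ a 1 0 0 := by
    intro heq
    have h1 : a 0 0 = a 1 0 := by
      funext i
      rw [Subsingleton.elim i 0]
      exact heq
    exact ha3 1 0 0 (by decide) (h1 ▸ ha1 0 0)
  obtain ⟨C, hC⟩ := traces_bound 1 (combine φ ψ)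
  let k := 2 * C + 1
  have h1 := hC M (Fin k ⊕ Fin k) (Fin k × Fin k)
    (Sum.elim (fun i => Sum.elim (Sum.elim (b i) (c 0)) ![a 0 0 0, a 0 0 0])
      (fun j => Sum.elim (Sum.elim (b 0) (c j)) ![a 0 0 0, a 1 0 0]))
    (fun p => a p.1 p.2) (by
      rintro ⟨i, j⟩ ⟨i', j'⟩ hij
      by_cases hi : i = i'
      · have hj : j ≠ j' := fun hj => hij (by rw [hi, hj])
        refine ⟨Sum.inr j, ?_⟩
        simp only [Sum.elim_inr, realize_combine, Matrix.cons_val_zero, Matrix.cons_val_one]
        intro hcon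
        have h2 := ha4 i' j' j (fun hh => hj (Fin.ext hh))
        apply h2
        have h3 := hcon.mp ⟨fun hh => absurd hh hne, fun _ => ha2 i j⟩
        exact h3.2 hne
      · refine ⟨Sum.inl i, ?_⟩
        simp only [Sum.elim_inl, realize_combine, Matrix.cons_val_zero, Matrix.cons_val_one]
        intro hcon
        have h2 := ha3 i' j' i (fun hh => hi (Fin.ext hh))
        apply h2
        have h3 := hcon.mp ⟨fun _ => ha1 i j, fun hh => absurd rfl hh⟩
        exact h3.1 trivial)
  simp only [Fintype.card_prod, Fintype.card_sum, Fintype.card_fin, pow_one] at h1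
  have h2 : k = 2 * C + 1 := rfl
  have h3 : k * k ≤ 2 * C * k + C := by nlinarith
  have h4 : k * k = 2 * C * k + k := by rw [h2]; ring
  omega

/-- Every instance of a formula of independence dimension at most one is finite or cofinite. -/
lemma finite_or_cofinite {n : ℕ} (ψ : Language.graph.Formula (Fin 1 ⊕ Fin n))
    (hψ : IndepDimLE freePseudoplane ψ 1) (c : Fin n → List ℕ) :
    (instanceSet ψ c).Finite ∨ (instanceSet ψ c)ᶜ.Finite := by
  classical
  obtain ⟨N, hN⟩ := exists_qe_formula ψ
  have : (List ℕ) ⊨ freePseudoplane := by unfold freePseudoplane; infer_instance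
  -- invariance
  have hinv : ∀ x y (c c' : Fin n → List ℕ), (∀ i j, dist (c i) (c j) = dist (c' i) (c' j)) →
      (∀ i, min (dist x (c i)) N = min (dist y (c' i)) N) →
      (ψ.Realize (Sum.elim (fun _ => x) c) ↔ ψ.Realize (Sum.elim (fun _ => y) c')) := by
    intro x y c c' h1 h2
    apply hN
    rintro (i | i) (j | j)
    · simp
    · exact h2 j
    · simp only [Sum.elim_inl, Sum.elim_inr]
      rw [dist_comm _ x, dist_comm _ y]
      exact h2 i
    · simp only [Sum.elim_inr]
      rw [h1]
  -- no two instances are independent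
  have hind : ∀ c' : Fin n → List ℕ, ¬ (
      (∃ x, ψ.Realize (Sum.elim (fun _ => x) c) ∧ ψ.Realize (Sum.elim (fun _ => x) c')) ∧
      (∃ x, ψ.Realize (Sum.elim (fun _ => x) c) ∧ ¬ ψ.Realize (Sum.elim (fun _ => x) c')) ∧
      (∃ x, ¬ ψ.Realize (Sum.elim (fun _ => x) c) ∧ ψ.Realize (Sum.elim (fun _ => x) c')) ∧
      (∃ x, ¬ ψ.Realize (Sum.elim (fun _ => x) c) ∧ ¬ ψ.Realize (Sum.elim (fun _ => x) c'))) := by
    rintro c' ⟨⟨x1, h1, h1'⟩, ⟨x2, h2, h2'⟩, ⟨x3, h3, h3'⟩, ⟨x4, h4, h4'⟩⟩
    have hne : instanceSet ψ c ≠ instanceSet ψ c' := by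
      intro heq
      have : (fun _ => x2) ∈ instanceSet ψ c' := heq ▸ h2
      exact h2' this
    have := hψ (List ℕ) {instanceSet ψ c, instanceSet ψ c'} (by
      intro B hB
      rw [Finset.mem_insert, Finset.mem_singleton] at hB
      rcases hB with rfl | rfl
      · exact ⟨c, rfl⟩
      · exact ⟨c', rfl⟩) (by
      intro s
      by_cases hs1 : s (instanceSet ψ c) <;> by_cases hs2 : s (instanceSet ψ c')
      · refine ⟨fun _ => x1, ?_⟩
        intro B hB
        rw [Finset.mem_coe, Finset.mem_insert, Finset.mem_singleton] at hB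
        rcases hB with rfl | rfl
        · exact iff_of_true h1 hs1
        · exact iff_of_true h1' hs2
      · refine ⟨fun _ => x2, ?_⟩
        intro B hB
        rw [Finset.mem_coe, Finset.mem_insert, Finset.mem_singleton] at hB
        rcases hB with rfl | rfl
        · exact iff_of_true h2 hs1
        · exact iff_of_false h2' hs2
      · refine ⟨fun _ => x3, ?_⟩
        intro B hB
        rw [Finset.mem_coe, Finset.mem_insert, Finset.mem_singleton] at hB
        rcases hB with rfl | rfl
        · exact iff_of_false h3 hs1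
        · exact iff_of_true h3' hs2
      · refine ⟨fun _ => x4, ?_⟩
        intro B hB
        rw [Finset.mem_coe, Finset.mem_insert, Finset.mem_singleton] at hB
        rcases hB with rfl | rfl
        · exact iff_of_false h4 hs1
        · exact iff_of_false h4' hs2)
    rw [Finset.card_pair hne] at this
    omega
  -- a far point
  obtain ⟨x0, hx0⟩ := exists_far (Finset.univ.image c) N
  have hx0' : ∀ i, N ≤ dist x0 (c i) := fun i => hx0 _ (Finset.mem_image_of_mem _ (Finset.mem_univ i))
  have hfar : ∀ x (c' : Fin n → List ℕ), (∀ i j, dist (c i) (c j) = dist (c' i) (c' j)) →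
      (∀ i, N ≤ dist x (c' i)) → (ψ.Realize (Sum.elim (fun _ => x0) c) ↔
        ψ.Realize (Sum.elim (fun _ => x) c')) := by
    intro x c' h1 h2
    apply hinv _ _ _ _ h1
    intro i
    rw [min_eq_right (h2 i), min_eq_right (hx0' i)]
  have hinj : Function.Injective (fun a : Fin 1 → List ℕ => a 0) := by
    intro a b hab
    funext i
    rw [Subsingleton.elim i 0]
    exact hab
  have hconst : ∀ a : Fin 1 → List ℕ, a = fun _ => a 0 := by
    intro a
    funext i
    rw [Subsingleton.elim i 0]
  by_cases h0 : ψ.Realize (Sum.elim (fun _ => x0) c)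
  · right
    have := finite_of_not_independent n (fun x c => ¬ ψ.Realize (Sum.elim (fun _ => x) c)) N
      (by
        intro x y c c' h1 h2 h3 h4
        exact h3 ((hinv x y c c' h1 (fun i => by rw [h2 i])).mpr h4)) c
      (by
        intro x c' h1 h2 h3
        exact h3 ((hfar x c' h1 h2).mp h0))
      (by
        rintro c' ⟨⟨x1, h1, h1'⟩, ⟨x2, h2, h2'⟩, ⟨x3, h3, h3'⟩, ⟨x4, h4, h4'⟩⟩
        exact hind c' ⟨⟨x4, not_not.mp h4, not_not.mp h4'⟩, ⟨x3, not_not.mp h3, h3'⟩,
          ⟨x2, h2, not_not.mp h2'⟩, ⟨x1, h1, h1'⟩⟩)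
    refine (this.preimage (hinj.injOn)).subset ?_
    intro a ha
    rw [Set.mem_preimage, Set.mem_ofPred_eq, ← hconst a]
    exact ha
  · left
    have := finite_of_not_independent n (fun x c => ψ.Realize (Sum.elim (fun _ => x) c)) N
      (by
        intro x y c c' h1 h2 h3
        exact (hinv x y c c' h1 (fun i => by rw [h2 i])).mp h3) c
      (by
        intro x c' h1 h2 h3
        exact h0 ((hfar x c' h1 h2).mpr h3)) hind
    refine (this.preimage (hinj.injOn)).subset ?_
    intro a ha
    rw [Set.mem_preimage, Set.mem_ofPred_eq, ← hconst a]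
    exact ha

/-- The Boolean algebra of finite and cofinite sets. -/
def finCofin (X : Type*) : BooleanSubalgebra (Set X) where
  carrier := {S | S.Finite ∨ Sᶜ.Finite}
  supClosed' := by
    rintro S (hS | hS) T (hT | hT)
    · exact Or.inl (hS.union hT)
    · exact Or.inr (hT.subset (by intro x hx hxT; exact hx (Or.inr hxT)))
    · exact Or.inr (hS.subset (by intro x hx hxS; exact hx (Or.inl hxS)))
    · exact Or.inr (hS.subset (by intro x hx hxS; exact hx (Or.inl hxS)))
  infClosed' := by
    rintro S (hS | hS) T (hT | hT)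
    · exact Or.inl (hS.subset Set.inter_subset_left)
    · exact Or.inl (hS.subset Set.inter_subset_left)
    · exact Or.inl (hT.subset Set.inter_subset_right)
    · exact Or.inr ((hS.union hT).subset (by
        intro x hx
        by_contra hcon
        simp only [Set.mem_union, Set.mem_compl_iff, not_or, not_not] at hcon
        exact hx hcon))
  compl_mem' := by
    rintro S (hS | hS)
    · right
      rwa [compl_compl]
    · left
      exact hS
  bot_mem' := Or.inl Set.finite_empty

lemma not_weaklyVCMinimal_freePseudoplane : ¬ WeaklyVCMinimal freePseudoplane := by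
  intro hW
  have : (List ℕ) ⊨ freePseudoplane := by unfold freePseudoplane; infer_instance
  have h := hW 1 (adj.formula₂ (Term.var (Sum.inl 0)) (Term.var (Sum.inr 0))) (List ℕ)
    (fun _ => [])
  have hle : BooleanSubalgebra.closure
      {X : Set (Fin 1 → List ℕ) | ∃ (k : ℕ) (ψ : Language.graph.Formula (Fin 1 ⊕ Fin k))
        (c : Fin k → List ℕ), IndepDimLE freePseudoplane ψ 1 ∧ X = instanceSet ψ c} ≤
      finCofin (Fin 1 → List ℕ) := by
    rw [BooleanSubalgebra.closure_le]
    rintro X ⟨k, ψ, c, hψ, rfl⟩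
    exact finite_or_cofinite ψ hψ c
  have h2 := hle h
  have hmem : ∀ x : List ℕ, (fun _ => x) ∈ instanceSet (adj.formula₂ (Term.var (Sum.inl 0))
      (Term.var (Sum.inr 0)) : Language.graph.Formula (Fin 1 ⊕ Fin 1)) (fun _ => ([] : List ℕ)) ↔
      x.length = 1 := by
    intro x
    unfold instanceSet
    rw [Set.mem_ofPred_eq, Formula.realize_rel₂, relMap_adj]
    simp [Pool.Agent.helper58.Tree.dist]
  have hinj : Function.Injective (fun (x : List ℕ) (_ : Fin 1) => x) := by
    intro x y hxy
    exact congrFun hxy 0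
  rcases h2 with h2 | h2
  · have h3 := h2.preimage (f := fun (x : List ℕ) (_ : Fin 1) => x) hinj.injOn
    have h4 : Set.Infinite (Set.range (fun n : ℕ => [n])) :=
      Set.infinite_range_of_injective (fun a b h => by simpa using h)
    refine h4 (h3.subset ?_)
    rintro x ⟨n, rfl⟩
    exact (hmem [n]).mpr rfl
  · have h3 := h2.preimage (f := fun (x : List ℕ) (_ : Fin 1) => x) hinj.injOn
    have h4 : Set.Infinite (Set.range (fun n : ℕ => [n, n])) :=
      Set.infinite_range_of_injective (fun a b h => by simpa using h)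
    refine h4 (h3.subset ?_)
    rintro x ⟨n, rfl⟩ hcon
    have := (hmem [n, n]).mp hcon
    simp at this

/-- There is a complete theory of low VC-density, and hence dp-minimal, which is not weakly
VC-minimal. -/
theorem result : ∃ T : Language.graph.Theory,
    T.IsComplete ∧ LowVCDensity T ∧ DpMinimal T ∧ ¬ WeaklyVCMinimal T :=
  ⟨freePseudoplane, completeTheory.isComplete _ _, lowVCDensity_freePseudoplane,
    dpMinimal_freePseudoplane, not_weaklyVCMinimal_freePseudoplane⟩

end Pool.Agent.Results.MP_670fc8_lc.FreePseudoplane
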